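import Pool.Agent.W785.FD.Stms

/-! Closing lemma for Poincare pairs -/

set_option autoImplicit false

open MeasureTheory Metric Set Filter
open scoped ENNReal NNReal Topology

namespace Pool.Agent.W589.FD

open Pool.Agent.W785.FD

theorem lsc_ball {X : Type*} [MetricSpace X] [MeasurableSpace X] (ν : Measure X) (s : ℝ) :
    LowerSemicontinuous (fun z : X => ν (ball z s)) := by
  intro z a ha
  have hU : (⋃ n : ℕ, ball z (s - 1 / ((n : ℝ) + 1))) = ball z s := by
    ext y
    simp only [mem_iUnion, mem_ball]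
    constructor
    · rintro ⟨n, hn⟩
      have : (0:ℝ) < 1 / ((n : ℝ) + 1) := by positivity
      linarith
    · intro h
      obtain ⟨n, hn⟩ := exists_nat_one_div_lt (sub_pos.mpr h)
      exact ⟨n, by linarith⟩
  have hmono : Monotone (fun n : ℕ => ball z (s - 1 / ((n : ℝ) + 1))) := by
    intro n m hnm
    apply ball_subset_ball
    have h1 : (n : ℝ) ≤ m := by exact_mod_cast hnm
    have h2 : 1 / ((m : ℝ) + 1) ≤ 1 / ((n : ℝ) + 1) := by
      apply one_div_le_one_div_of_le (by positivity)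
      linarith
    linarith
  have ht := tendsto_measure_iUnion_atTop (μ := ν) hmono
  rw [hU] at ht
  obtain ⟨n, hn⟩ := (ht.eventually_const_lt ha).exists
  have hpos : (0:ℝ) < 1 / ((n : ℝ) + 1) := by positivity
  filter_upwards [ball_mem_nhds z hpos] with z' hz'
  refine lt_of_lt_of_le hn (measure_mono ?_)
  apply ball_subset_ball'
  rw [mem_ball, dist_comm] at hz'
  linarith

theorem measurable_lav {X : Type*} [MetricSpace X] [MeasurableSpace X] [BorelSpace X] (μ : Measure X)
    (f : X → ℝ≥0∞) (s : ℝ) : Measurable (fun z => lav μ f z s) := by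
  have h1 : (fun z => lav μ f z s) = fun z => (μ.withDensity f) (ball z s) / μ (ball z s) := by
    funext z
    unfold lav
    rw [withDensity_apply f measurableSet_ball]
  rw [h1]
  exact (lsc_ball _ s).measurable.div (lsc_ball _ s).measurable

theorem rpow_diff {p : ℝ} (hp : 1 ≤ p) (a b : ℝ≥0∞) : ((a - b) + (b - a)) ^ p ≤ (a ^ p - b ^ p) + (b ^ p - a ^ p) := by
  have key : ∀ a b : ℝ≥0∞, b ≤ a → (a - b) ^ p ≤ a ^ p - b ^ p := by
    intro a b hab
    by_cases hb : b = ∞
    · have : a = ∞ := top_le_iff.mp (hb ▸ hab)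
      rw [this, hb]
      simp [ENNReal.zero_rpow_of_pos (lt_of_lt_of_le one_pos hp)]
    · apply ENNReal.le_sub_of_add_le_right
      · exact ENNReal.rpow_ne_top_of_nonneg (by linarith) hb
      · refine (ENNReal.add_rpow_le_rpow_add _ _ hp).trans ?_
        rw [tsub_add_cancel_of_le hab]
  rcases le_total a b with h | h
  · rw [tsub_eq_zero_of_le h, zero_add]
    exact (key b a h).trans le_add_self
  · rw [tsub_eq_zero_of_le h, add_zero]
    exact (key a b h).trans le_self_add

theorem le_add_diff (a b : ℝ≥0∞) : a ≤ b + ((a - b) + (b - a)) := by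
  calc a ≤ b + (a - b) := le_add_tsub
    _ ≤ _ := by gcongr; exact le_self_add

theorem limsup_add_const (u : ℕ → ℝ≥0∞) (c : ℝ≥0∞) : limsup (fun k => u k + c) atTop = limsup u atTop + c := by
  have h1 : Monotone (fun x : ℝ≥0∞ => x + c) := fun x y h => by
    dsimp only
    gcongr
  have h2 : Continuous (fun x : ℝ≥0∞ => x + c) := by fun_prop
  have h := h1.map_limsup_of_continuousAt (F := atTop) u h2.continuousAt
  simpa [Function.comp_def] using h.symm

theorem abs_toReal_le {A B E : ℝ≥0∞} (hA : A ≠ ∞) (hB : B ≠ ∞) (h1 : A ≤ B + E) (h2 : B ≤ A + E) :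
    ENNReal.ofReal |A.toReal - B.toReal| ≤ E := by
  by_cases hE : E = ∞
  · rw [hE]; exact le_top
  · rw [← ENNReal.ofReal_toReal hE]
    apply ENNReal.ofReal_le_ofReal
    have e1 := ENNReal.toReal_mono (ENNReal.add_ne_top.mpr ⟨hB, hE⟩) h1
    have e2 := ENNReal.toReal_mono (ENNReal.add_ne_top.mpr ⟨hA, hE⟩) h2
    rw [ENNReal.toReal_add hB hE] at e1
    rw [ENNReal.toReal_add hA hE] at e2
    rw [abs_le]
    constructor <;> linarith

theorem ofReal_le_add_abs (x y : ℝ) : ENNReal.ofReal x ≤ ENNReal.ofReal y + ENNReal.ofReal |x - y| := by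
  rw [← sub_add_cancel x y, add_comm (x - y) y]
  refine ENNReal.ofReal_add_le.trans ?_
  gcongr
  rw [add_sub_cancel_left]
  exact le_abs_self _

theorem main {X : Type*} [MetricSpace X] [ProperSpace X] [MeasurableSpace X] [BorelSpace X] (μ : Measure X)
    (p D : ℝ) (hp : 1 < p) (hD : Dbl μ D) (h1 : S_AVG μ) (h2 : S_CHAIN μ p) (h3 : S_LD μ) : S_CLOSE μ p := by
  intro K Λ hK hΛ
  obtain ⟨K', hK', hch⟩ := h2 K Λ hK hΛ
  refine ⟨K', hK', ?_⟩
  intro v g hv hv0 hv1 hg hgp hPP
  have hp0 : (0:ℝ) < p := by linarith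
  have hLI : LI μ v := by
    intro x r
    have hfin : IsFiniteMeasure (μ.restrict (ball x r)) := ⟨by
      rw [Measure.restrict_apply_univ]; exact hD.fin x r⟩
    refine Integrable.mono' (integrable_const (1:ℝ)) hv.restrict.aestronglyMeasurable ?_
    refine Eventually.of_forall fun y => ?_
    rw [Real.norm_eq_abs, abs_of_nonneg (hv0 y)]
    exact hv1 y
  have hc2 : (0:ℝ) < 2 * Λ + 2 := by linarith
  set f : X → ℝ≥0∞ := fun y => g y ^ p with hf
  have hfm : Measurable f := hg.pow_const p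
  -- choice of the radii
  have hAV := h1 f hfm hgp
  have hAV2 : Tendsto (fun s : ℝ => ∫⁻ z, ((lav μ f z ((2 * Λ + 2) * s) - f z) + (f z - lav μ f z ((2 * Λ + 2) * s))) ∂μ)
      (𝓝[>] 0) (𝓝 0) := by
    refine hAV.comp (f := fun s : ℝ => (2 * Λ + 2) * s) ?_
    apply tendsto_nhdsWithin_of_tendsto_nhds_of_eventually_within
    · have : Continuous (fun s : ℝ => (2 * Λ + 2) * s) := by fun_prop
      have h := this.tendsto 0
      rw [mul_zero] at h
      exact h.mono_left nhdsWithin_le_nhds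
    · filter_upwards [self_mem_nhdsWithin] with s hs
      exact mul_pos hc2 hs
  have hex : ∀ k : ℕ, ∃ ρ : ℝ, 0 < ρ ∧ ρ ≤ (1 / 2) ^ k ∧
      ∫⁻ z, ((lav μ f z ((2 * Λ + 2) * ρ) - f z) + (f z - lav μ f z ((2 * Λ + 2) * ρ))) ∂μ ≤
        (((1:ℝ≥0∞) / 4) ^ k) ^ p := by
    intro k
    have hpos : (0:ℝ≥0∞) < (((1:ℝ≥0∞) / 4) ^ k) ^ p := by
      apply ENNReal.rpow_pos
      · apply ENNReal.pow_pos
        exact ENNReal.div_pos one_ne_zero (by norm_num)
      · apply ENNReal.pow_ne_top
        exact ENNReal.div_ne_top ENNReal.one_ne_top (by norm_num)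
    have e1 := hAV2.eventually_le_const hpos
    have e2 : ∀ᶠ s : ℝ in 𝓝[>] 0, s ≤ (1 / 2 : ℝ) ^ k :=
      nhdsWithin_le_nhds (Iic_mem_nhds (by positivity))
    have e3 : ∀ᶠ s : ℝ in 𝓝[>] 0, (0:ℝ) < s := eventually_mem_nhdsWithin
    obtain ⟨s, hs1, hs2, hs3⟩ := (e1.and (e2.and e3)).exists
    exact ⟨s, hs3, hs2, hs1⟩
  choose ρ hρ0 hρ1 hρ2 using hex
  have hρlim : Tendsto ρ atTop (𝓝[>] 0) := by
    apply tendsto_nhdsWithin_of_tendsto_nhds_of_eventually_within
    · exact squeeze_zero (fun k => (hρ0 k).le) hρ1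
        (tendsto_pow_atTop_nhds_zero_of_lt_one (by norm_num) (by norm_num))
    · exact Eventually.of_forall hρ0
  set Gk : ℕ → X → ℝ≥0∞ := fun k z => (lav μ f z ((2 * Λ + 2) * ρ k)) ^ (1 / p) with hGk
  have hGkm : ∀ k, Measurable (Gk k) := fun k => (measurable_lav μ f _).pow_const _
  have hGkp : ∀ k z, Gk k z ^ p = lav μ f z ((2 * Λ + 2) * ρ k) := by
    intro k z
    rw [hGk]
    simp only
    rw [← ENNReal.rpow_mul, one_div, inv_mul_cancel₀ hp0.ne', ENNReal.rpow_one]
  set dk : ℕ → X → ℝ≥0∞ := fun k z => (Gk k z - g z) + (g z - Gk k z) with hdk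
  have hdkm : ∀ k, Measurable (dk k) := fun k => ((hGkm k).sub hg).add (hg.sub (hGkm k))
  have hdkp : ∀ k, ∫⁻ z, dk k z ^ p ∂μ ≤ (((1:ℝ≥0∞) / 4) ^ k) ^ p := by
    intro k
    refine le_trans (lintegral_mono fun z => ?_) (hρ2 k)
    have := rpow_diff hp.le (Gk k z) (g z)
    rw [hGkp] at this
    exact this
  -- the exceptional function
  set h : X → ℝ≥0∞ := fun z => (∑' k : ℕ, ((2:ℝ≥0∞) ^ k * dk k z) ^ p) ^ (1 / p) with hh
  have htm : ∀ k : ℕ, Measurable (fun z => ((2:ℝ≥0∞) ^ k * dk k z) ^ p) :=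
    fun k => ((hdkm k).const_mul _).pow_const p
  have hhm : Measurable h := (Measurable.tsum htm).pow_const _
  have hhp : ∫⁻ z, h z ^ p ∂μ < ∞ := by
    have e1 : ∀ z, h z ^ p = ∑' k : ℕ, ((2:ℝ≥0∞) ^ k * dk k z) ^ p := by
      intro z
      rw [hh]
      simp only
      rw [← ENNReal.rpow_mul, one_div, inv_mul_cancel₀ hp0.ne', ENNReal.rpow_one]
    simp only [e1]
    rw [lintegral_tsum fun k => (htm k).aemeasurable]
    have e2 : ∀ k : ℕ, ∫⁻ z, ((2:ℝ≥0∞) ^ k * dk k z) ^ p ∂μ ≤ ENNReal.ofReal (((1/2:ℝ) ^ p) ^ k) := by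
      intro k
      have e3 : ∀ z, ((2:ℝ≥0∞) ^ k * dk k z) ^ p = ((2:ℝ≥0∞) ^ k) ^ p * dk k z ^ p := fun z =>
        ENNReal.mul_rpow_of_nonneg _ _ hp0.le
      simp only [e3]
      rw [lintegral_const_mul _ ((hdkm k).pow_const p)]
      calc ((2:ℝ≥0∞) ^ k) ^ p * ∫⁻ z, dk k z ^ p ∂μ ≤ ((2:ℝ≥0∞) ^ k) ^ p * (((1:ℝ≥0∞) / 4) ^ k) ^ p := by
            gcongr; exact hdkp k
        _ = ((1/2 : ℝ≥0∞) ^ k) ^ p := by
            rw [← ENNReal.mul_rpow_of_nonneg _ _ hp0.le, ← mul_pow]
            congr 2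
            rw [show (4:ℝ≥0∞) = 2 * 2 by norm_num, ENNReal.div_eq_inv_mul, ENNReal.div_eq_inv_mul, mul_one, mul_one,
              ENNReal.mul_inv (by norm_num) (by norm_num), ← mul_assoc,
              ENNReal.mul_inv_cancel (by norm_num) (by norm_num), one_mul]
        _ = ENNReal.ofReal (((1/2:ℝ) ^ p) ^ k) := by
            rw [← Real.rpow_natCast, ← Real.rpow_mul (by norm_num), mul_comm p, Real.rpow_mul (by norm_num),
              Real.rpow_natCast, ← ENNReal.ofReal_rpow_of_nonneg (by positivity) hp0.le,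
              ENNReal.ofReal_pow (by norm_num)]
            congr 2
            rw [ENNReal.ofReal_div_of_pos (by norm_num)]
            simp
    refine lt_of_le_of_lt (ENNReal.tsum_le_tsum e2) ?_
    rw [← ENNReal.ofReal_tsum_of_nonneg (fun k => by positivity)
      (summable_geometric_of_lt_one (by positivity) (Real.rpow_lt_one (by norm_num) (by norm_num) hp0))]
    exact ENNReal.ofReal_lt_top
  have hdh : ∀ (k : ℕ) z, (2:ℝ≥0∞) ^ k * dk k z ≤ h z := by
    intro k z
    have e1 : ((2:ℝ≥0∞) ^ k * dk k z) ^ p ≤ ∑' k : ℕ, ((2:ℝ≥0∞) ^ k * dk k z) ^ p :=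
      ENNReal.le_tsum k
    have e2 := ENNReal.rpow_le_rpow e1 (by positivity : (0:ℝ) ≤ 1 / p)
    rw [← ENNReal.rpow_mul, mul_one_div_cancel hp0.ne', ENNReal.rpow_one] at e2
    exact e2
  -- the representative
  set fv : X → ℝ≥0∞ := fun y => ENNReal.ofReal (v y) with hfv
  set M : ℕ → X → ℝ≥0∞ := fun k y => lav μ fv y (ρ k) with hM
  have hMm : ∀ k, Measurable (M k) := fun k => measurable_lav μ fv _
  have hM1 : ∀ k y, M k y ≤ 1 := by
    intro k y
    rw [hM]
    simp only [lav]
    calc (∫⁻ z in ball y (ρ k), fv z ∂μ) / μ (ball y (ρ k)) ≤ (∫⁻ _ in ball y (ρ k), 1 ∂μ) / μ (ball y (ρ k)) := by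
          gcongr with z
          rw [hfv]
          simp only
          rw [← ENNReal.ofReal_one]
          exact ENNReal.ofReal_le_ofReal (hv1 z)
      _ = μ (ball y (ρ k)) / μ (ball y (ρ k)) := by simp
      _ ≤ 1 := ENNReal.div_self_le_one
  have hmean : ∀ y r, ENNReal.ofReal (mean μ v y r) = lav μ fv y r := by
    intro y r
    unfold mean lav
    exact ofReal_setAverage (hLI y r) (Eventually.of_forall hv0)
  set W : X → ℝ≥0∞ := fun y => limsup (fun k => M k y) atTop with hW
  have hWm : Measurable W := Measurable.limsup hMm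
  have hW1 : ∀ y, W y ≤ 1 := fun y => limsup_le_of_le (by isBoundedDefault) (Eventually.of_forall fun k => hM1 k y)
  have hWt : ∀ y, W y ≠ ∞ := fun y => ne_top_of_le_ne_top ENNReal.one_ne_top (hW1 y)
  refine ⟨fun y => (W y).toReal, hWm.ennreal_toReal, fun y => ENNReal.toReal_nonneg, ?_, ?_, ?_, ?_⟩
  · intro y
    have := ENNReal.toReal_mono ENNReal.one_ne_top (hW1 y)
    simpa using this
  · -- almost everywhere equality
    filter_upwards [h3 v hLI] with x hx
    have hL : Tendsto (fun k => lav μ (fun y => ENNReal.ofReal |v y - v x|) x (ρ k)) atTop (𝓝 0) := hx.comp hρlim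
    have hup : ∀ k, M k x ≤ ENNReal.ofReal (v x) + lav μ (fun y => ENNReal.ofReal |v y - v x|) x (ρ k) := by
      intro k
      rw [hM]
      simp only [lav]
      have hb0 := (hD.pos x (ρ k) (hρ0 k)).ne'
      have hbt := (hD.fin x (ρ k)).ne
      calc (∫⁻ z in ball x (ρ k), fv z ∂μ) / μ (ball x (ρ k))
          ≤ (∫⁻ z in ball x (ρ k), (ENNReal.ofReal (v x) + ENNReal.ofReal |v z - v x|) ∂μ) / μ (ball x (ρ k)) := by
            gcongr with z
            exact ofReal_le_add_abs _ _
        _ = _ := by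
            rw [lintegral_add_left measurable_const, setLIntegral_const, ENNReal.add_div,
              ENNReal.mul_div_cancel_right hb0 hbt]
    have hlo : ∀ k, ENNReal.ofReal (v x) ≤ M k x + lav μ (fun y => ENNReal.ofReal |v y - v x|) x (ρ k) := by
      intro k
      rw [hM]
      simp only [lav]
      have hb0 := (hD.pos x (ρ k) (hρ0 k)).ne'
      have hbt := (hD.fin x (ρ k)).ne
      calc ENNReal.ofReal (v x) = (∫⁻ _ in ball x (ρ k), ENNReal.ofReal (v x) ∂μ) / μ (ball x (ρ k)) := by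
            rw [setLIntegral_const, ENNReal.mul_div_cancel_right hb0 hbt]
        _ ≤ (∫⁻ z in ball x (ρ k), (fv z + ENNReal.ofReal |v z - v x|) ∂μ) / μ (ball x (ρ k)) := by
            gcongr with z
            rw [abs_sub_comm]
            exact ofReal_le_add_abs _ _
        _ = _ := by
            rw [lintegral_add_left' (hv.restrict.ennreal_ofReal), ENNReal.add_div]
    have hlim : Tendsto (fun k => M k x) atTop (𝓝 (ENNReal.ofReal (v x))) := by
      have t1 : Tendsto (fun k => ENNReal.ofReal (v x) + lav μ (fun y => ENNReal.ofReal |v y - v x|) x (ρ k)) atTop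
          (𝓝 (ENNReal.ofReal (v x))) := by
        have := (tendsto_const_nhds (x := ENNReal.ofReal (v x))).add hL
        rwa [add_zero] at this
      have t2 : Tendsto (fun k => ENNReal.ofReal (v x) - lav μ (fun y => ENNReal.ofReal |v y - v x|) x (ρ k)) atTop
          (𝓝 (ENNReal.ofReal (v x))) := by
        have := ENNReal.Tendsto.sub (tendsto_const_nhds (x := ENNReal.ofReal (v x))) hL (Or.inl ENNReal.ofReal_ne_top)
        rwa [tsub_zero] at this
      exact tendsto_of_tendsto_of_tendsto_of_le_of_le t2 t1 (fun k => tsub_le_iff_right.mpr (hlo k)) hup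
    show (W x).toReal = v x
    rw [hW]
    simp only
    rw [hlim.limsup_eq, ENNReal.toReal_ofReal (hv0 x)]
  · -- weak upper gradient
    refine ⟨hg.const_mul _, h, hhm, hhp, ?_⟩
    intro c
    by_cases hcl : c.l = 0
    · left
      unfold CrvIneq
      rw [hcl]
      simp
    have hl : 0 < c.l := lt_of_le_of_ne c.nonneg (Ne.symm hcl)
    by_cases hch2 : c.int h = ∞
    · exact Or.inr hch2
    left
    have hγ : Measurable c.γ := c.lip.continuous.measurable
    have hconst : c.int (fun z => ENNReal.ofReal K' * g z) = ENNReal.ofReal K' * c.int g := by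
      unfold Crv.int
      exact lintegral_const_mul _ (hg.comp hγ)
    have hd : ∀ k : ℕ, c.int (dk k) ≤ ENNReal.ofReal ((1 / 2) ^ k) * c.int h := by
      intro k
      have e1 : (2:ℝ≥0∞) ^ k * c.int (dk k) ≤ c.int h := by
        have e0 : (2:ℝ≥0∞) ^ k * c.int (dk k) = ∫⁻ t in Icc 0 c.l, (2:ℝ≥0∞) ^ k * dk k (c.γ t) :=
          (lintegral_const_mul _ ((hdkm k).comp hγ)).symm
        rw [e0]
        exact lintegral_mono fun t => hdh k _
      have e2 : ENNReal.ofReal ((1 / 2 : ℝ) ^ k) * (2:ℝ≥0∞) ^ k = 1 := by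
        rw [show (2:ℝ≥0∞) = ENNReal.ofReal 2 by simp, ← ENNReal.ofReal_pow (by norm_num),
          ← ENNReal.ofReal_mul (by positivity), ← mul_pow]
        norm_num
      calc c.int (dk k) = ENNReal.ofReal ((1 / 2 : ℝ) ^ k) * (2:ℝ≥0∞) ^ k * c.int (dk k) := by rw [e2, one_mul]
        _ = ENNReal.ofReal ((1 / 2 : ℝ) ^ k) * ((2:ℝ≥0∞) ^ k * c.int (dk k)) := by rw [mul_assoc]
        _ ≤ _ := by gcongr
    have hGint : ∀ k, c.int (Gk k) ≤ c.int g + ENNReal.ofReal ((1 / 2) ^ k) * c.int h := by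
      intro k
      refine le_trans ?_ (add_le_add_right (hd k) _)
      have e0 : c.int g + c.int (dk k) = ∫⁻ t in Icc 0 c.l, (g (c.γ t) + dk k (c.γ t)) :=
        (lintegral_add_left (hg.comp hγ) _).symm
      rw [e0]
      exact lintegral_mono fun t => le_add_diff _ _
    -- the inequality between the representatives
    have hineq : ∀ a b : X, (∀ k, ρ k ≤ c.l → ENNReal.ofReal |mean μ v a (ρ k) - mean μ v b (ρ k)| ≤
        ENNReal.ofReal K' * c.int (Gk k)) → W a ≤ W b + ENNReal.ofReal K' * c.int g := by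
      intro a b hab
      have hlim : Tendsto (fun k : ℕ => ENNReal.ofReal K' * (ENNReal.ofReal ((1 / 2) ^ k) * c.int h)) atTop (𝓝 0) := by
        have t1 : Tendsto (fun k : ℕ => ENNReal.ofReal ((1 / 2 : ℝ) ^ k)) atTop (𝓝 0) := by
          have := ENNReal.tendsto_ofReal (tendsto_pow_atTop_nhds_zero_of_lt_one (r := (1/2:ℝ)) (by norm_num) (by norm_num))
          rwa [ENNReal.ofReal_zero] at this
        have t2 := ENNReal.Tendsto.mul_const t1 (Or.inr hch2)
        rw [zero_mul] at t2
        have t3 := ENNReal.Tendsto.const_mul t2 (Or.inr (ENNReal.ofReal_ne_top (r := K')))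
        rwa [mul_zero] at t3
      apply ENNReal.le_of_forall_pos_le_add
      intro δ hδ _
      have hδ' : (0:ℝ≥0∞) < δ := by exact_mod_cast hδ
      have ev1 := hlim.eventually_le_const hδ'
      have ev2 : ∀ᶠ k in atTop, ρ k ≤ c.l := by
        have t := hρlim.mono_right nhdsWithin_le_nhds
        exact t.eventually_le_const hl
      have ev3 : ∀ᶠ k in atTop, M k a ≤ M k b + (ENNReal.ofReal K' * c.int g + δ) := by
        filter_upwards [ev1, ev2] with k e1 e2
        have e3 := hab k e2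
        have e4 := ofReal_le_add_abs (mean μ v a (ρ k)) (mean μ v b (ρ k))
        rw [hmean, hmean] at e4
        calc M k a ≤ M k b + ENNReal.ofReal |mean μ v a (ρ k) - mean μ v b (ρ k)| := e4
          _ ≤ M k b + ENNReal.ofReal K' * c.int (Gk k) := by gcongr
          _ ≤ M k b + ENNReal.ofReal K' * (c.int g + ENNReal.ofReal ((1 / 2) ^ k) * c.int h) := by
              gcongr; exact hGint k
          _ = M k b + (ENNReal.ofReal K' * c.int g +
                ENNReal.ofReal K' * (ENNReal.ofReal ((1 / 2) ^ k) * c.int h)) := by rw [mul_add]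
          _ ≤ _ := by gcongr
      calc W a ≤ limsup (fun k => M k b + (ENNReal.ofReal K' * c.int g + δ)) atTop :=
            limsup_le_limsup ev3
        _ = W b + (ENNReal.ofReal K' * c.int g + δ) := limsup_add_const _ _
        _ = W b + ENNReal.ofReal K' * c.int g + δ := by rw [add_assoc]
    have hAB := hineq (c.γ 0) (c.γ c.l) (fun k hk => hch v g hLI hg hPP (ρ k) (hρ0 k) c hk)
    have hBA := hineq (c.γ c.l) (c.γ 0) (fun k hk => by
      rw [abs_sub_comm]
      exact hch v g hLI hg hPP (ρ k) (hρ0 k) c hk)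
    unfold CrvIneq
    rw [hconst]
    exact abs_toReal_le (hWt _) (hWt _) hAB hBA
  · intro y hy
    have h1 : Tendsto (fun k => M k y) atTop (𝓝 0) := by
      have h2 := ENNReal.tendsto_ofReal (hy.comp hρlim)
      rw [ENNReal.ofReal_zero] at h2
      refine h2.congr fun k => ?_
      exact hmean y (ρ k)
    show (W y).toReal = 0
    rw [hW]
    simp only
    rw [h1.limsup_eq]
    simp

end Pool.Agent.W589.FD
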